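import Pool.Agent.H56.Hofstadter

set_option autoImplicit false

namespace Pool.Agent.Results.MP_0b4958_nt.LogLogFour

/-- For the Hofstadter consecutive-sum sequence, `a_n > n + log(log n)/log 4 - 1` for all `n ≥ 2`. -/
theorem result :
    ∀ a : ℕ → ℕ, a 1 = 1 → a 2 = 2 →
      (∀ n : ℕ, 3 ≤ n →
        IsLeast {m : ℕ | a (n - 1) < m ∧
          ∃ i j : ℕ, 1 ≤ i ∧ i < j ∧ j < n ∧ m = ∑ k ∈ Finset.Icc i j, a k} (a n)) →
      ∀ n : ℕ, 2 ≤ n →
        (n : ℝ) + Real.log (Real.log n) / Real.log 4 - 1 < a n := by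
  intro a h1 h2 h3 n hn
  exact Pool.Agent.H56.Hofstadter.IsHof.lower ⟨h1, h2, h3⟩ n hn

end Pool.Agent.Results.MP_0b4958_nt.LogLogFour
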